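import Pool.Agent.Q197.FM.Two2
import Pool.Agent.Q217.TG.Values

/-!
# Euclid's lemma for almost all values `2 ^ (x + y) + 2 ^ (z + w) + 1`

Call `N` a value for `n` if `n = x² + y² + z² + w²` and `N = 2 ^ (x + y) + 2 ^ (z + w) + 1`.  Say that
Euclid's lemma holds for `N` (with the ranges for `n`) if `N ∣ u` or `N ∣ v` whenever `u v = q N` and
`u`, `v`, `q` are sums of `k₁`, `k₂`, `k₃` terms `a 2 ^ α`, `|a| < 2 ^ h`, where
`k₁ + k₂ + k₃ ≤ (log n) / 50` and `h ≤ n ^ (1 / 50)`.  Then `N` is no product of two integers `≠ ± 1`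
which are sums of `k₁`, `k₂` terms `± 2 ^ i` with `k₁ + k₂ + 1 ≤ (log n) / 50`.

(1) For all `n` with `log n ≥ 200`, Euclid's lemma holds for all values `N` for `n` with at most
`n ^ (3 / 4)` exceptions.
(2) For every `ε > 0` there is `c > 0` such that every large odd `n` has at least `n ^ (1 - ε)` different
values `N` for which Euclid's lemma holds and all of whose prime factors are larger than
`c log n log log n / log log log n`.
-/

set_option autoImplicit false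

namespace Pool.Agent.Results.MP_1e1427_nt.GenericExponents

open Finset

/-- `N` is a value for `n`. -/
def Value (n N : ℕ) : Prop :=
  ∃ x y z w : ℕ, n = x ^ 2 + y ^ 2 + z ^ 2 + w ^ 2 ∧ N = 2 ^ (x + y) + 2 ^ (z + w) + 1

/-- `u` is a sum of `k` terms `a 2 ^ α` with `|a| < 2 ^ h`. -/
def Windows (k h : ℕ) (u : ℤ) : Prop :=
  ∃ (a : Fin k → ℤ) (α : Fin k → ℕ), (∀ i, |a i| < 2 ^ h) ∧ u = ∑ i, a i * 2 ^ α i

/-- Euclid's lemma for `N` among sparse integers; the ranges depend on `n`. -/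
def Euclid (n N : ℕ) : Prop :=
  ∀ (k₁ k₂ k₃ h : ℕ) (u v q : ℤ), (k₁ + k₂ + k₃ : ℝ) ≤ Real.log n / 50 →
    (h : ℝ) ≤ (n : ℝ) ^ ((1 : ℝ) / 50) → Windows k₁ h u → Windows k₂ h v → Windows k₃ h q →
    u * v = q * N → (N : ℤ) ∣ u ∨ (N : ℤ) ∣ v

/-- All factorizations of `N` into two sparse integers are trivial. -/
def NoSparseFactorization (n N : ℕ) : Prop :=
  ∀ (k₁ k₂ : ℕ) (u v : ℤ), (k₁ + k₂ + 1 : ℝ) ≤ Real.log n / 50 → Windows k₁ 1 u →
    Windows k₂ 1 v → u * v = N → (u = 1 ∨ u = -1) ∨ (v = 1 ∨ v = -1)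

theorem nsf {n N : ℕ} (hN : N ≠ 0) (hx : 200 ≤ Real.log n) (h : Euclid n N) :
    NoSparseFactorization n N :=
  fun _ _ _ _ hk hu hv huv => Q217.TG.trivial_factor hN h hx hk hu hv huv

theorem part1 {n : ℕ} (hx : 200 ≤ Real.log n) :
    ∃ F : Finset ℕ, (F.card : ℝ) ≤ (n : ℝ) ^ ((3 : ℝ) / 4) ∧
      ∀ N : ℕ, Value n N → N ∉ F → Euclid n N ∧ NoSparseFactorization n N := by
  obtain ⟨F, hF, h⟩ := Q217.TG.few_exceptions hx
  refine ⟨F, hF, ?_⟩
  rintro N ⟨x, y, z, w, hn, rfl⟩ hNF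
  have h1 : Euclid n (2 ^ (x + y) + 2 ^ (z + w) + 1) := h x y z w hn hNF
  exact ⟨h1, nsf (by positivity) hx h1⟩

/-- **Euclid's lemma for almost all values.** -/
theorem result :
    (∀ n : ℕ, 200 ≤ Real.log n →
      ∃ F : Finset ℕ, (F.card : ℝ) ≤ (n : ℝ) ^ ((3 : ℝ) / 4) ∧
        ∀ N : ℕ, Value n N → N ∉ F → Euclid n N ∧ NoSparseFactorization n N) ∧
    (∀ ε : ℝ, 0 < ε → ∃ c : ℝ, 0 < c ∧ ∃ n₀ : ℕ, ∀ n : ℕ, n₀ ≤ n → Odd n →
      ∃ T : Finset ℕ, (n : ℝ) ^ (1 - ε) ≤ (T.card : ℝ) ∧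
        ∀ N ∈ T, Value n N ∧ Euclid n N ∧ NoSparseFactorization n N ∧
          ∀ q : ℕ, q.Prime → q ∣ N →
            c * (Real.log n * Real.log (Real.log n) / Real.log (Real.log (Real.log n))) < q) := by
  classical
  refine ⟨fun n hx => part1 hx, ?_⟩
  intro ε hε
  obtain ⟨c, hc, n₀, hT⟩ := Pool.Agent.Q197.FM.two_values (min ε (1 / 4) / 2)
    (by
      have : 0 < min ε (1 / 4) := lt_min hε (by norm_num)
      linarith)
  have hlog : Filter.Tendsto (fun n : ℕ => Real.log (n : ℝ)) Filter.atTop Filter.atTop :=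
    Real.tendsto_log_atTop.comp tendsto_natCast_atTop_atTop
  obtain ⟨n₁, h1⟩ := Filter.eventually_atTop.1 (hlog.eventually_ge_atTop (max 200 (2 / ε)))
  refine ⟨c, hc, n₀ + n₁, ?_⟩
  intro n hn hodd
  obtain ⟨T, hT1, hT2⟩ := hT n (by omega) hodd
  have h2 := h1 n (by omega)
  have hx : 200 ≤ Real.log n := (le_max_left _ _).trans h2
  have hx2 : 2 / ε ≤ Real.log n := (le_max_right _ _).trans h2
  obtain ⟨F, hF1, hF2⟩ := part1 hx
  refine ⟨T \ F, ?_, ?_⟩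
  · have h3 := Q217.TG.powers hε hx hx2
    have h4 : (T.card : ℝ) ≤ (T \ F).card + F.card := by
      have h5 : T.card ≤ (T \ F).card + F.card := Finset.card_le_card_sdiff_add_card
      exact_mod_cast h5
    linarith
  · intro N hN
    rw [Finset.mem_sdiff] at hN
    obtain ⟨h3, h4⟩ := hT2 N hN.1
    obtain ⟨h5, h6⟩ := hF2 N h3 hN.2
    exact ⟨h3, h5, h6, h4⟩

end Pool.Agent.Results.MP_1e1427_nt.GenericExponents
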