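import Pool.Agent.Q106.IV.Two
import Pool.Agent.Q106.IV.Low
import Pool.Agent.Q106.IV.Inst

/-!
# MP_1e1427_nt: the question for arbitrary random sets near the random models of the primes

`Val2 n N`: `N = 2^(x+y) + 2^(z+w) + 1` with `n = x² + y² + z² + w²`. `Dens C p`: probabilities `p N = (log N)^(-1+o(1))` on the `N`
whose prime factors exceed `C log log N`, and at most so large on the others; `sieved C` is one such choice. The model contains each `N` independently with
probability `p N`; `Un p` is the set of the `N` with `0 < p N < 1`, and for any random set `A` of natural numbers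
`relEnt p μ A (ind (Un p) x)` is the relative entropy of the law of `A ∩ Un p ∩ [0, x)` with respect to the model.
-/

set_option autoImplicit false

namespace Pool.Agent.Results.MP_1e1427_nt.InformationThreshold

open MeasureTheory Filter Pool.Agent.Q106.IV
open Pool.Agent.Q120.ET (IsRandomSet)
open Pool.Agent.Q120.ME (relEnt ind)

/-- **The question is answered positively for all large `n` by all random sets of information `(log x)^θ`, `θ < 1`; not for `θ > 1`.** -/
theorem result :
    (∀ C : ℝ, Dens C (sieved C)) ∧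
    ∀ (C : ℝ) (p : ℕ → ℝ), Dens C p →
      (∀ θ ε : ℝ, 0 ≤ θ → θ < 1 → 0 < ε →
        ∀ (Ω : Type) [MeasurableSpace Ω] (μ : Measure Ω) [IsProbabilityMeasure μ] (A : Ω → Set ℕ), IsRandomSet A →
          (∀ᶠ x : ℕ in atTop, relEnt p μ A (ind (Un p) x) ≤ Real.log x ^ θ) →
          ∀ᵐ ω ∂μ, ∀ᶠ n : ℕ in atTop, Odd n →
            ∃ T : Finset ℕ, (n : ℝ) ^ (1 / 2 - ε) ≤ (T.card : ℝ) ∧ ∀ N ∈ T, N ∈ A ω ∧ Val2 n N) ∧
      ∀ θ : ℝ, 1 < θ →
        ∃ (Ω : Type) (_ : MeasurableSpace Ω) (μ : Measure Ω) (_ : IsProbabilityMeasure μ) (A : Ω → Set ℕ), IsRandomSet A ∧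
          (∀ᶠ x : ℕ in atTop, relEnt p μ A (ind (Un p) x) ≤ Real.log x ^ θ) ∧
          ∀ᵐ ω ∂μ, ∀ n N : ℕ, Val2 n N → N ∉ A ω := by
  refine ⟨dens_sieved, fun C p hp => ⟨fun θ ε h0 h1 hε => info_values hp.range (hyp_two hp) h0 h1 hε, fun θ hθ => ?_⟩⟩
  obtain ⟨Ω, i1, μ, i2, A, hA, hent, hfree⟩ := delete_set hp.range W2
  refine ⟨Ω, i1, μ, i2, A, hA, ?_, ?_⟩
  · filter_upwards [cost_W2 hp.upper hθ] with x hx
    exact (hent x).trans hx
  · filter_upwards [hfree] with ω hω n N hN hNA
    refine hω N hNA ?_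
    obtain ⟨x, y, z, w, _, h2⟩ := hN
    rcases le_total (z + w) (x + y) with h | h
    · exact ⟨x + y, z + w, h, h2⟩
    · exact ⟨z + w, x + y, h, by rw [h2]; ring⟩

end Pool.Agent.Results.MP_1e1427_nt.InformationThreshold
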