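import Pool.Agent.Q197.SP.R1e1

/-!
# Many values without small prime factors

Every large odd `n` has at least `n ^ (1 - ε)` different numbers `N = 2^(x+y) + 2^(z+w) + 1` with
`n = x² + y² + z² + w²` all of whose prime factors are larger than `c log n log log n / log log log n`.
-/

set_option autoImplicit false

namespace Pool.Agent.Results.MP_1e1427_nt.ManyValuesNoSmallFactors

open MeasureTheory ProbabilityTheory Filter Pool.Agent.Q197.SP.R1e1

theorem result (ε : ℝ) (hε : 0 < ε) :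
    ∃ c : ℝ, 0 < c ∧ ∃ n₀ : ℕ, ∀ n : ℕ, n₀ ≤ n → Odd n →
      ∃ T : Finset ℕ, (n : ℝ) ^ (1 - ε) ≤ (T.card : ℝ) ∧
        ∀ N ∈ T,
          (∃ x y z w : ℕ, n = x ^ 2 + y ^ 2 + z ^ 2 + w ^ 2 ∧ N = 2 ^ (x + y) + 2 ^ (z + w) + 1) ∧
          ∀ q : ℕ, q.Prime → q ∣ N →
            c * (Real.log n * Real.log (Real.log n) / Real.log (Real.log (Real.log n))) < q := by
  exact (all_parts ε hε).1

end Pool.Agent.Results.MP_1e1427_nt.ManyValuesNoSmallFactors
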