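import Pool.Agent.Q197.SP.R1e1

/-!
# The question for random sets of integers

The set of the primes is replaced by a random set `A` of natural numbers. It is only assumed that the events `N ∈ A` are
independent and that `N ∈ A` has probability at least `(log N) ^ (-β)` for all large `N` all of whose prime factors are
larger than `C log log N`. Then almost surely every large odd `n` has at least `n ^ (1 - β / 2 - ε)` different numbers
`N = 2^(x+y) + 2^(z+w) + 1` with `n = x² + y² + z² + w²` that lie in `A`.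
-/

set_option autoImplicit false

namespace Pool.Agent.Results.MP_1e1427_nt.RandomPrimes

open MeasureTheory ProbabilityTheory Filter Pool.Agent.Q197.SP.R1e1

theorem result (ε : ℝ) (hε : 0 < ε) (β C : ℝ) (hβ : 0 ≤ β) (hβε : β / 2 + ε ≤ 1) :
    ∀ (Ω : Type) [MeasurableSpace Ω] (μ : Measure Ω) [IsProbabilityMeasure μ] (A : Ω → Set ℕ),
      (∀ N : ℕ, MeasurableSet {ω | N ∈ A ω}) →
      iIndepSet (fun N : ℕ => {ω | N ∈ A ω}) μ →
      (∃ N₀ : ℕ, ∀ N : ℕ, N₀ ≤ N →
        (∀ q : ℕ, q.Prime → q ∣ N → C * Real.log (Real.log N) < q) →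
        (Real.log N) ^ (-β) ≤ μ.real {ω | N ∈ A ω}) →
      ∀ᵐ ω ∂μ, ∃ n₀ : ℕ, ∀ n : ℕ, n₀ ≤ n → Odd n →
        ∃ T : Finset ℕ, (n : ℝ) ^ (1 - β / 2 - ε) ≤ (T.card : ℝ) ∧
          ∀ N ∈ T, N ∈ A ω ∧
            ∃ x y z w : ℕ, n = x ^ 2 + y ^ 2 + z ^ 2 + w ^ 2 ∧ N = 2 ^ (x + y) + 2 ^ (z + w) + 1 := by
  exact (all_parts ε hε).2 β C hβ hβε

end Pool.Agent.Results.MP_1e1427_nt.RandomPrimes
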